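import Pool.Agent.Lib_helper82.T12.Main

/-!
# Large central values at almost all prime levels and class numbers of imaginary quadratic fields

Let `N` be a prime and `H₂⁺(N)` the set of normalised Hecke eigen-newforms `f` of weight `2` for
`Γ₀(N)` with even functional equation, counted with natural (equal) weights, and `p_A(N)` the
proportion of the `f ∈ H₂⁺(N)` with `L(1/2, f) > (log N)^{-A}`.

* There are `A, c > 0` with `p_A(N) ≥ 1/2 + c` for almost all primes `N` if and only if there is `B`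
  with `h(K) ≥ c' √|d| (log |d|)^{-B}` for all imaginary quadratic fields `K`.
* With the exponent, for `A > 1/2`: if `1 - β ≥ (log q)^{-(A + 1/2 - δ)}` for the real zeros of the
  odd real primitive characters of large conductor `q`, then `p_A(N) ≥ 1/2 + c` for almost all
  primes `N`, `c` absolute; if this fails with `A + 1/2 + δ`, then for every `ε > 0` the primes `N`
  with `|p_A(N) - 1/2| ≤ ε` have relative upper density `1`.

Authors of the blocks (team): see `Lib_helper82/T12`, `Lib_helper41/TK`, `Lib_helper15/TEM`,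
`Lib_helper84/TU`, `Lib_helper82/CN` and the libraries of the other hand-ins for this problem.
-/

namespace Pool.Agent.Results.MP_cc4f83_nt.AlmostAllLevels

open Complex MeasureTheory ProbabilityTheory Filter Topology
open scoped MatrixGroups

/-- The space of cusp forms of weight `2` for `Γ₀(N)`. -/
abbrev S2 (N : ℕ) : Type :=
  CuspForm (CongruenceSubgroup.Gamma0 N : Subgroup (GL (Fin 2) ℝ)) 2

/-- The Fourier coefficients `a(n)`, `f(z) = ∑ a(n) e^{2πinz}`. -/
noncomputable def coeff {N : ℕ} (f : S2 N) (n : ℕ) : ℂ := (UpperHalfPlane.qExpansion 1 f).coeff n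

/-- `f` is a normalised Hecke eigen-newform of prime level `N` and weight `2`: `a(1) = 1` and the
coefficients satisfy all Hecke relations.  (All forms of prime level and weight `2` are new.) -/
structure IsNewform {N : ℕ} (f : S2 N) : Prop where
  one : coeff f 1 = 1
  mul : ∀ m n : ℕ, m.Coprime n → coeff f (m * n) = coeff f m * coeff f n
  hecke : ∀ p r : ℕ, p.Prime → p ≠ N →
    coeff f (p ^ (r + 2)) = coeff f p * coeff f (p ^ (r + 1)) - (p : ℂ) * coeff f (p ^ r)
  level : ∀ r : ℕ, coeff f (N ^ (r + 1)) = coeff f N ^ (r + 1)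

/-- The L-function `∑ a(n) n^{-s}` (Mathlib's entire continuation), classical normalisation: the
centre is `s = 1`, and `L(1/2, f)` in the analytic normalisation is `L f 1`. -/
noncomputable def L {N : ℕ} [Fact N.Prime] (f : S2 N) (s : ℂ) : ℂ :=
  ModularForm.L (k := 2) two_pos f s

/-- The completed L-function has the functional equation with sign `+1`. -/
def EvenFE {N : ℕ} [Fact N.Prime] (f : S2 N) : Prop := ∀ s : ℂ, 0 < s.re → s.re < 2 →
  ((Real.sqrt N / (2 * Real.pi) : ℝ) : ℂ) ^ s * Complex.Gamma s * L f s =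
    ((Real.sqrt N / (2 * Real.pi) : ℝ) : ℂ) ^ (2 - s) * Complex.Gamma (2 - s) * L f (2 - s)

/-- The set `H₂⁺(N)`. -/
def H (N : ℕ) [Fact N.Prime] : Set (S2 N) := {f | IsNewform f ∧ EvenFE f}

/-- The proportion of the `f ∈ H₂⁺(N)` with the property `P`. -/
noncomputable def prop (N : ℕ) [Fact N.Prime] (P : S2 N → Prop) : ℝ :=
  ({f : S2 N | f ∈ H N ∧ P f}.ncard : ℝ) / ((H N).ncard : ℝ)

/-- `p_A(N)`: the proportion of the `f ∈ H₂⁺(N)` with `L(1/2, f) > (log N)^{-A}`. -/
noncomputable def pA (A : ℝ) (N : ℕ) [Fact N.Prime] : ℝ :=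
  prop N fun f => Real.log N ^ (-A) < (L f 1).re

/-- `β < 1` is a real zero of `L(s, χ)`, `χ` a real primitive character of conductor `q > 1`. -/
structure RealZero {q : ℕ} [NeZero q] (χ : DirichletCharacter ℂ q) (β : ℝ) : Prop where
  one_lt : 1 < q
  prim : χ.IsPrimitive
  sq : χ ^ 2 = 1
  lt_one : β < 1
  zero : DirichletCharacter.LFunction χ (β : ℂ) = 0

/-- `1 - β ≥ (log q)^{-B}` for all real zeros `β` of odd real primitive characters of large
conductor `q`. -/
def RegionOdd (B : ℝ) : Prop := ∃ q₀ : ℕ, ∀ (q : ℕ) [NeZero q], q₀ ≤ q →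
  ∀ (χ : DirichletCharacter ℂ q) (β : ℝ), RealZero χ β → χ.Odd → Real.log q ^ (-B) ≤ 1 - β

/-- `h(K) ≥ c √|d| (log |d|)^{-B}` for all imaginary quadratic fields `K`: `d` is the discriminant
and `h` the class number. -/
def ClassIm (B : ℝ) : Prop := ∃ c : ℝ, 0 < c ∧ ∀ (K : Type) [Field K] [NumberField K],
  Module.finrank ℚ K = 2 → NumberField.discr K < 0 →
  c * Real.sqrt |(NumberField.discr K : ℝ)| * Real.log |(NumberField.discr K : ℝ)| ^ (-B) ≤
    NumberField.classNumber K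

/-- The share of the primes `N ≤ X` with `P N` among all primes `N ≤ X`. -/
noncomputable def share (P : ℕ → Prop) (X : ℕ) : ℝ :=
  ({N : ℕ | N ≤ X ∧ N.Prime ∧ P N}.ncard : ℝ) / ({N : ℕ | N ≤ X ∧ N.Prime}.ncard : ℝ)

/-- `P N` for almost all primes `N`: relative density `1`. -/
def AlmostAll (P : ℕ → Prop) : Prop := Tendsto (share P) atTop (𝓝 1)

/-- The primes `N` with `P N` have relative upper density `1`. -/
def UpperOne (P : ℕ → Prop) : Prop :=
  ∀ η : ℝ, 0 < η → ∃ᶠ X : ℕ in atTop, 1 - η ≤ share P X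

theorem H_eq (N : ℕ) [Fact N.Prime] : H N = LEV.HE N := by
  ext f
  constructor
  · rintro ⟨h, h'⟩
    exact ⟨⟨h.one, h.mul, h.hecke, h.level⟩, h'⟩
  · rintro ⟨h, h'⟩
    exact ⟨⟨h.one, h.mul, h.hecke, h.level⟩, h'⟩

theorem prop_eq (N : ℕ) [Fact N.Prime] (P : S2 N → Prop) : prop N P = T12.sh N P := by
  unfold prop T12.sh
  rw [H_eq]

theorem pA_eq (A : ℝ) (N : ℕ) [Fact N.Prime] : pA A N = T12.rA A N := prop_eq N _

theorem rz_iff {q : ℕ} [NeZero q] (χ : DirichletCharacter ℂ q) (β : ℝ) :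
    RealZero χ β ↔ T12.RZ χ β := by
  constructor
  · intro h
    refine ⟨⟨h.prim, h.sq, ?_⟩, h.lt_one, h.zero⟩
    intro h3
    have h1 := h.prim
    rw [h3] at h1
    have h4 : (1 : DirichletCharacter ℂ q).conductor = q := h1
    rw [DirichletCharacter.conductor_one] at h4
    have := h.one_lt
    omega
  · intro h
    refine ⟨?_, h.pq.prim, h.pq.sq, h.lt, h.zero⟩
    rcases Nat.lt_or_ge 1 q with h6 | h6
    · exact h6
    · exfalso
      have h7 : q = 1 := by
        have := NeZero.ne q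
        omega
      subst h7
      exact h.pq.ne (Subsingleton.elim _ _)

theorem regionOdd_iff (B : ℝ) : RegionOdd B ↔ T12.ZB (fun χ => χ.Odd) B := by
  unfold RegionOdd T12.ZB
  constructor
  · rintro ⟨q₀, h⟩
    exact ⟨q₀, fun q _ hq χ β hz ho => h q hq χ β ((rz_iff χ β).2 hz) ho⟩
  · rintro ⟨q₀, h⟩
    exact ⟨q₀, fun q _ hq χ β hz ho => h q hq χ β ((rz_iff χ β).1 hz) ho⟩

theorem result :
    ((∃ A c : ℝ, 0 < A ∧ 0 < c ∧ AlmostAll (fun N => ∀ h : N.Prime, 1 / 2 + c ≤ @pA A N ⟨h⟩)) ↔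
      ∃ B : ℝ, ClassIm B) ∧
    (∃ c : ℝ, 0 < c ∧ ∀ A δ : ℝ, 1 / 2 < A → 0 < δ → RegionOdd (A + 1 / 2 - δ) →
      AlmostAll (fun N => ∀ h : N.Prime, 1 / 2 + c ≤ @pA A N ⟨h⟩)) ∧
    (∀ A δ : ℝ, 1 / 2 < A → 0 < δ → ¬ RegionOdd (A + 1 / 2 + δ) → ∀ ε : ℝ, 0 < ε →
      UpperOne (fun N => ∀ h : N.Prime, |@pA A N ⟨h⟩ - 1 / 2| ≤ ε)) := by
  simp only [pA_eq]
  refine ⟨?_, ?_, ?_⟩
  · have h := T12.main_almost
    constructor
    · rintro ⟨A, c, hA, hc, h1⟩
      exact h.1 ⟨A, c, hA, hc, (T12.almostAll_iff _).2 h1⟩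
    · intro hB
      obtain ⟨A, c, hA, hc, h1⟩ := h.2 hB
      exact ⟨A, c, hA, hc, (T12.almostAll_iff _).1 h1⟩
  · obtain ⟨c, hc, h⟩ := T12.rA_laws.c3s
    exact ⟨c, hc, fun A δ hA hδ hr => (T12.almostAll_iff _).1
      (h A δ hA hδ ((regionOdd_iff _).1 hr))⟩
  · intro A δ hA hδ hr ε hε
    exact (T12.upperOne_iff _).1
      (T12.rA_laws.c4 A δ hA hδ (fun h => hr ((regionOdd_iff _).2 h)) ε hε)

end Pool.Agent.Results.MP_cc4f83_nt.AlmostAllLevels
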