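import Pool.Agent.Lib_helper68.LEV.Fin2
import Pool.Agent.Lib_helper41.LVBF.AFE
import Pool.Agent.Lib_helper32.NNF.FIN
import Pool.Agent.Lib_helper41.LSP3.TPH
import Pool.Agent.Lib_helper62.SIE.D

/-!
# More than half of the central values of weight two newforms are nonzero at large prime levels

Let `N` be a prime, `H₂⁺(N)` the set of normalised Hecke eigen-newforms `f` of weight `2` for
`Γ₀(N)` with even functional equation, counted with natural (equal) weights, and `p_A(N)` the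
proportion of the `f ∈ H₂⁺(N)` with `L(1/2, f) > (log N)^{-A}`.  There are absolute constants
`c, κ, A > 0` with the following properties.

* For all large primes `N` and all `0 < w ≤ 1`: if no real primitive character `χ` of conductor at
  most `N^κ` with `χ(-N) = 1` has a real zero `β > 1 - w`, then at least the proportion `1/2 + c` of
  the `f ∈ H₂⁺(N)` satisfies `L(1/2, f) > w (log N)^{-A}`.
* Unconditionally, at every large prime level `N`, at least the proportion `1/2 + c` of the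
  `f ∈ H₂⁺(N)` satisfies `L(1/2, f) > N^{-ε}`, for every `ε > 0`.  In particular more than half of
  the central values are nonzero.
* If for some `B` no real primitive character of any conductor `q > 1` has a real zero
  `β > 1 - (log q)^{-B}`, then `p_{A+B}(N) ≥ 1/2 + c` for all large primes `N`.

Authors of the blocks (team): helper71 (proof and assembly), helper41 (equal end points, assembly,
this file), helper53, helper31, helper15, helper19, helper14, helper68, helper92, helper62 (Siegel's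
theorem), helper32 and co-authors (nonnegativity of the central values), the authors of the blocks
of the parts K, E, M, G, X (LKF, LEF, LMF, LGF, EXCF) and the authors of the libraries LSP, LSPF,
LSPM, LSPD, LSPI, GA, GAB, GAF, KSLF, KSL, LVB, LVBF, KSN, LEV and FG (see HalfProportion and
EveryLevel).
-/

namespace Pool.Agent.Results.MP_cc4f83_nt.MoreThanHalfNonzero

open Complex MeasureTheory ProbabilityTheory
open scoped MatrixGroups

/-- The space of cusp forms of weight `2` for `Γ₀(N)`. -/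
abbrev S2 (N : ℕ) : Type :=
  CuspForm (CongruenceSubgroup.Gamma0 N : Subgroup (GL (Fin 2) ℝ)) 2

/-- The Fourier coefficients `a(n)`, `f(z) = ∑ a(n) e^{2πinz}`. -/
noncomputable def coeff {N : ℕ} (f : S2 N) (n : ℕ) : ℂ := (UpperHalfPlane.qExpansion 1 f).coeff n

/-- `f` is a normalised Hecke eigen-newform of prime level `N` and weight `2`: `a(1) = 1` and the
coefficients satisfy all Hecke relations.  (All forms of prime level and weight `2` are new.) -/
structure IsNewform {N : ℕ} (f : S2 N) : Prop where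
  one : coeff f 1 = 1
  mul : ∀ m n : ℕ, m.Coprime n → coeff f (m * n) = coeff f m * coeff f n
  hecke : ∀ p r : ℕ, p.Prime → p ≠ N →
    coeff f (p ^ (r + 2)) = coeff f p * coeff f (p ^ (r + 1)) - (p : ℂ) * coeff f (p ^ r)
  level : ∀ r : ℕ, coeff f (N ^ (r + 1)) = coeff f N ^ (r + 1)

/-- The L-function `∑ a(n) n^{-s}` (Mathlib's entire continuation), classical normalisation: the
centre is `s = 1`, and `L(1/2, f)` in the analytic normalisation is `L f 1`. -/
noncomputable def L {N : ℕ} [Fact N.Prime] (f : S2 N) (s : ℂ) : ℂ :=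
  ModularForm.L (k := 2) two_pos f s

/-- The completed L-function has the functional equation with sign `+1`. -/
def EvenFE {N : ℕ} [Fact N.Prime] (f : S2 N) : Prop := ∀ s : ℂ, 0 < s.re → s.re < 2 →
  ((Real.sqrt N / (2 * Real.pi) : ℝ) : ℂ) ^ s * Complex.Gamma s * L f s =
    ((Real.sqrt N / (2 * Real.pi) : ℝ) : ℂ) ^ (2 - s) * Complex.Gamma (2 - s) * L f (2 - s)

/-- The set `H₂⁺(N)`. -/
def H (N : ℕ) [Fact N.Prime] : Set (S2 N) := {f | IsNewform f ∧ EvenFE f}

/-- The proportion of the `f ∈ H₂⁺(N)` with the property `P`. -/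
noncomputable def prop (N : ℕ) [Fact N.Prime] (P : S2 N → Prop) : ℝ :=
  ({f : S2 N | f ∈ H N ∧ P f}.ncard : ℝ) / ((H N).ncard : ℝ)

/-- `p_A(N)`: the proportion of the `f ∈ H₂⁺(N)` with `L(1/2, f) > (log N)^{-A}`. -/
noncomputable def pA (A : ℝ) (N : ℕ) [Fact N.Prime] : ℝ :=
  prop N fun f => Real.log N ^ (-A) < (L f 1).re

/-- No real primitive character `χ` of conductor `q`, `1 < q ≤ D`, with `χ(-N) = 1` has a real zero
`β > 1 - w`. -/
def NoZero (N : ℕ) (w D : ℝ) : Prop :=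
  ∀ (q : ℕ) [NeZero q], 1 < q → (q : ℝ) ≤ D → ∀ χ : DirichletCharacter ℂ q, χ.IsPrimitive →
    χ ^ 2 = 1 → χ (-(N : ZMod q)) = 1 → ∀ β : ℝ, 1 - w < β →
      DirichletCharacter.LFunction χ (β : ℂ) ≠ 0

/-- No real primitive character of any conductor `q > 1` has a real zero `β > 1 - (log q)^{-B}`. -/
def WeakSiegel (B : ℝ) : Prop :=
  ∀ (q : ℕ) [NeZero q], 1 < q → ∀ χ : DirichletCharacter ℂ q, χ.IsPrimitive →
    χ ^ 2 = 1 → ∀ β : ℝ, 1 - Real.log q ^ (-B) < β →
      DirichletCharacter.LFunction χ (β : ℂ) ≠ 0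

theorem H_eq (N : ℕ) [Fact N.Prime] : H N = LEV.HE N := by
  ext f
  constructor
  · rintro ⟨h, h'⟩
    exact ⟨⟨h.one, h.mul, h.hecke, h.level⟩, h'⟩
  · rintro ⟨h, h'⟩
    exact ⟨⟨h.one, h.mul, h.hecke, h.level⟩, h'⟩

theorem H_finite (N : ℕ) [Fact N.Prime] : (H N).Finite := by
  rw [H_eq]
  exact LEV.HE_fin N

theorem H_pos : ∃ N₀ : ℕ, ∀ (N : ℕ) [Fact N.Prime], N₀ ≤ N → (0 : ℝ) < ((H N).ncard : ℝ) := by
  obtain ⟨N₀, h⟩ := LEV.even_low' (1 / 48) (by norm_num)
  refine ⟨N₀, fun N _ hN => ?_⟩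
  have h1 := h N hN
  rw [H_eq]
  have h2 : (0 : ℝ) < N := by exact_mod_cast (Fact.out : N.Prime).pos
  linarith

theorem real_value {N : ℕ} [Fact N.Prime] (hN : 3 ≤ N) {f : S2 N} (hf : f ∈ H N) :
    L f 1 = (((L f 1).re : ℝ) : ℂ) := by
  rw [H_eq, LEV.HE_eq] at hf
  have h := (LVB.afe hN hf.1 hf.2).2
  refine Complex.ext rfl ?_
  show (LEV.Lh f).im = _
  rw [h]
  simp

theorem nonneg {N : ℕ} [Fact N.Prime] {f : S2 N} (hf : f ∈ H N) : 0 ≤ (L f 1).re := by
  rw [H_eq, LEV.HE_eq] at hf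
  exact LEV.lval_nonneg N f hf.1

theorem prop_mono {N : ℕ} [Fact N.Prime] {P Q : S2 N → Prop} (h : ∀ f ∈ H N, P f → Q f) :
    prop N P ≤ prop N Q := by
  unfold prop
  apply div_le_div_of_nonneg_right _ (Nat.cast_nonneg _)
  norm_cast
  apply Set.ncard_le_ncard _ ((H_finite N).subset fun f hf => hf.1)
  rintro f ⟨h1, h2⟩
  exact ⟨h1, h f h1 h2⟩

/-- from numbers of forms to proportions -/
theorem prop_of {c : ℝ} (h0 : 0 < c) (h1 : c ≤ 1) : ∃ N₀ : ℕ, ∀ (N : ℕ) [Fact N.Prime], N₀ ≤ N →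
    ∀ P : S2 N → Prop,
    (1 / 2 + c) * (N / 24) ≤ ({f : S2 N | f ∈ H N ∧ P f}.ncard : ℝ) →
      1 / 2 + c / 2 ≤ prop N P := by
  obtain ⟨N₂, h2⟩ := LEV.even_up (ε := c / 100) (by positivity)
  obtain ⟨N₃, h3⟩ := H_pos
  refine ⟨N₂ + N₃, fun N _ hN P h => ?_⟩
  have h5 := h2 N (by omega)
  have h6 := h3 N (by omega)
  have hN0 : (0 : ℝ) < N := by exact_mod_cast (Fact.out : N.Prime).pos
  rw [← H_eq] at h5
  unfold prop
  rw [le_div_iff₀ h6]
  refine le_trans ?_ h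
  have h8 : (1 / 2 + c / 2) * ((H N).ncard : ℝ) ≤ (1 / 2 + c / 2) * ((1 / 24 + c / 100) * N) :=
    mul_le_mul_of_nonneg_left h5 (by linarith)
  have h9 : (1 / 2 + c / 2) * (1 / 24 + c / 100) ≤ (1 / 2 + c) / 24 := by nlinarith
  calc (1 / 2 + c / 2) * ((H N).ncard : ℝ) ≤ (1 / 2 + c / 2) * ((1 / 24 + c / 100) * N) := h8
    _ = ((1 / 2 + c / 2) * (1 / 24 + c / 100)) * N := by ring
    _ ≤ ((1 / 2 + c) / 24) * N := mul_le_mul_of_nonneg_right h9 hN0.le
    _ = _ := by ring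

/-- the main theorem, in terms of the distance of an exceptional zero to `1` -/
theorem main : ∃ c κ A : ℝ, 0 < c ∧ 0 < κ ∧ κ ≤ 1 / 2 ∧ 0 < A ∧ ∃ N₀ : ℕ,
    ∀ (N : ℕ) [Fact N.Prime], N₀ ≤ N → ∀ w : ℝ, 0 < w → w ≤ 1 → NoZero N w ((N : ℝ) ^ κ) →
      1 / 2 + c ≤ prop N fun f => w * Real.log N ^ (-A) < (L f 1).re := by
  obtain ⟨c, κ, a, N₀, hc, hc1, hκ, hκ1, h⟩ := LSP.all_levelsH
  obtain ⟨N₁, h1⟩ := prop_of hc hc1
  refine ⟨c / 2, κ, a + 1, by positivity, hκ, hκ1, by positivity, N₀ + N₁ + 3,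
    fun N _ hN w hw hw1 hz => h1 N (by omega) _ ((h N (by omega) (1 / w) ?_ ?_).trans ?_)⟩
  · rw [le_div_iff₀ hw]
    linarith
  · intro q _ χ hχ hq hN1 β hβ
    have hq1 : 1 < q := by
      rcases Nat.lt_or_ge 1 q with h6 | h6
      · exact h6
      · exfalso
        have h7 : q = 1 := by
          have := NeZero.ne q
          omega
        subst h7
        exact hχ.ne (Subsingleton.elim _ _)
    refine hz q hq1 hq χ hχ.prim hχ.sq hN1 β ?_
    rwa [one_div_one_div] at hβ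
  · have hN3 : 3 ≤ N := by omega
    have hlog : 1 < Real.log N := by
      have h4 : (3 : ℝ) ≤ N := by exact_mod_cast hN3
      rw [Real.lt_log_iff_exp_lt (by linarith)]
      have := Real.exp_one_lt_three
      linarith
    refine Nat.cast_le.mpr ?_
    apply Set.ncard_le_ncard _ ((H_finite N).subset fun f hf => hf.1)
    rintro f ⟨h8, h9⟩
    have h10 : f ∈ H N := by
      rw [H_eq, LEV.HE_eq]
      exact h8
    refine ⟨h10, ?_⟩
    have h11 : ‖LEV.Lh f‖ = (L f 1).re := by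
      show ‖L f 1‖ = _
      rw [real_value hN3 h10, Complex.norm_real, Real.norm_eq_abs, Complex.ofReal_re,
        abs_of_nonneg (nonneg h10)]
    rw [h11] at h9
    refine lt_of_lt_of_le ?_ h9
    have h12 : 1 / (1 / w * Real.log N ^ a) = w * Real.log N ^ (-(a : ℝ)) := by
      rw [Real.rpow_neg (by linarith), Real.rpow_natCast]
      field_simp
    rw [h12]
    exact mul_lt_mul_of_pos_left (Real.rpow_lt_rpow_of_exponent_lt hlog (by linarith)) hw

/-- Siegel's theorem: at the level `N` there is no zero within `c N^{-ε}` of `1` -/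
theorem siegel_zero {ε κ : ℝ} (hε : 0 < ε) (hκ : κ ≤ 1) : ∃ c : ℝ, 0 < c ∧ ∀ N : ℕ, 2 ≤ N →
    NoZero N (c * (N : ℝ) ^ (-ε)) ((N : ℝ) ^ κ) := by
  obtain ⟨c, hc, h⟩ := SIE.siegel ε hε
  refine ⟨c, hc, fun N hN q _ hq1 hq χ h1 h2 _ β hβ h0 => ?_⟩
  have hN1 : (1 : ℝ) < N := by exact_mod_cast (by omega : 1 < N)
  have hN0 : (0 : ℝ) < N := by linarith
  have hq0 : (1 : ℝ) < q := by exact_mod_cast hq1
  have hne : χ ≠ 1 := by
    intro h3
    rw [h3] at h1
    have h4 : (1 : DirichletCharacter ℂ q).conductor = q := h1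
    rw [DirichletCharacter.conductor_one] at h4
    omega
  have hβ1 : β ≤ 1 := by
    by_contra h6
    push Not at h6
    exact DirichletCharacter.LFunction_ne_zero_of_one_le_re χ (s := (β : ℂ)) (Or.inl hne)
      (by simpa using h6.le) h0
  have h5 := h q χ ⟨h1, h2, hne⟩ β h0 hβ1
  have h6 : (q : ℝ) ^ ε ≤ (N : ℝ) ^ ε := by
    refine Real.rpow_le_rpow (by linarith) (hq.trans ?_) hε.le
    calc (N : ℝ) ^ κ ≤ (N : ℝ) ^ (1 : ℝ) := Real.rpow_le_rpow_of_exponent_le hN1.le hκ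
      _ = N := Real.rpow_one _
  have h7 : c * (N : ℝ) ^ (-ε) ≤ c / (q : ℝ) ^ ε := by
    rw [Real.rpow_neg hN0.le, ← div_eq_mul_inv]
    exact div_le_div_of_nonneg_left hc.le (by positivity) h6
  linarith

theorem weak_zero {B : ℝ} (hB : 0 < B) (h : WeakSiegel B) {κ : ℝ} (hκ : κ ≤ 1) {N : ℕ}
    (hN : 2 ≤ N) : NoZero N (Real.log N ^ (-B)) ((N : ℝ) ^ κ) := by
  intro q _ hq1 hq χ h1 h2 _ β hβ
  refine h q hq1 χ h1 h2 β (lt_of_le_of_lt ?_ hβ)
  have hN1 : (1 : ℝ) < N := by exact_mod_cast (by omega : 1 < N)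
  have h4 : (1 : ℝ) < q := by exact_mod_cast hq1
  have h5 : 0 < Real.log q := Real.log_pos h4
  have h6 : Real.log q ≤ Real.log N := by
    apply Real.log_le_log (by linarith)
    refine hq.trans ?_
    calc (N : ℝ) ^ κ ≤ (N : ℝ) ^ (1 : ℝ) := Real.rpow_le_rpow_of_exponent_le hN1.le hκ
      _ = N := Real.rpow_one _
  have h7 : Real.log N ^ (-B) ≤ Real.log q ^ (-B) :=
    Real.rpow_le_rpow_of_nonpos h5 h6 (by linarith)
  linarith

theorem result : ∃ c κ A : ℝ, 0 < c ∧ 0 < κ ∧ 0 < A ∧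
    (∃ N₀ : ℕ, ∀ (N : ℕ) [Fact N.Prime], N₀ ≤ N → ∀ w : ℝ, 0 < w → w ≤ 1 →
      NoZero N w ((N : ℝ) ^ κ) →
        1 / 2 + c ≤ prop N fun f => w * Real.log N ^ (-A) < (L f 1).re) ∧
    (∀ ε : ℝ, 0 < ε → ∃ N₀ : ℕ, ∀ (N : ℕ) [Fact N.Prime], N₀ ≤ N →
      1 / 2 + c ≤ prop N fun f => (N : ℝ) ^ (-ε) < (L f 1).re) ∧
    (∀ B : ℝ, 0 < B → WeakSiegel B → ∃ N₀ : ℕ, ∀ (N : ℕ) [Fact N.Prime], N₀ ≤ N →
      1 / 2 + c ≤ pA (A + B) N) := by
  obtain ⟨c, κ, A, hc, hκ, hκ1, hA, N₀, h⟩ := main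
  refine ⟨c, κ, A, hc, hκ, hA, ⟨N₀, h⟩, fun ε hε => ?_, fun B hB hw => ?_⟩
  · obtain ⟨b, hb, hz⟩ := siegel_zero (ε := ε / 2) (κ := κ) (by positivity) (by linarith)
    -- `(log N)^A ≤ min(1, b) N^{ε/2}` for large `N`
    have hsmall : (fun x : ℝ => Real.log x ^ A) =o[Filter.atTop] fun x : ℝ => x ^ (ε / 2) :=
      isLittleO_log_rpow_rpow_atTop A (by positivity)
    have hm : 0 < min 1 b / 2 := by positivity
    have hev := (hsmall.def hm).and (Filter.eventually_ge_atTop (3 : ℝ))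
    obtain ⟨X, hX⟩ := Filter.eventually_atTop.mp hev
    obtain ⟨N₁, hN₁⟩ := exists_nat_ge X
    refine ⟨N₀ + N₁ + 3, fun N _ hN => ?_⟩
    have hNX : X ≤ (N : ℝ) := hN₁.trans (by exact_mod_cast (by omega : N₁ ≤ N))
    obtain ⟨h1, h2⟩ := hX N hNX
    have hN0 : (0 : ℝ) < N := by linarith
    have hN1 : (1 : ℝ) < N := by linarith
    have hlog : 0 < Real.log N := Real.log_pos hN1
    have hlA : 0 < Real.log N ^ A := Real.rpow_pos_of_pos hlog _
    have hNe : 0 < (N : ℝ) ^ (ε / 2) := Real.rpow_pos_of_pos hN0 _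
    rw [Real.norm_of_nonneg hlA.le, Real.norm_of_nonneg hNe.le] at h1
    -- the width
    obtain ⟨w, hwd⟩ : ∃ w : ℝ, w = min 1 b * (N : ℝ) ^ (-(ε / 2)) := ⟨_, rfl⟩
    have hNe' : (N : ℝ) ^ (-(ε / 2)) ≤ 1 :=
      Real.rpow_le_one_of_one_le_of_nonpos hN1.le (by linarith)
    have hNe0 : 0 < (N : ℝ) ^ (-(ε / 2)) := Real.rpow_pos_of_pos hN0 _
    have hw0 : 0 < w := by rw [hwd]; positivity
    have hw1 : w ≤ 1 := by
      rw [hwd]
      calc min 1 b * (N : ℝ) ^ (-(ε / 2)) ≤ 1 * 1 :=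
            mul_le_mul (min_le_left _ _) hNe' hNe0.le (by norm_num)
        _ = 1 := one_mul 1
    have hz' : NoZero N w ((N : ℝ) ^ κ) := by
      intro q _ hq1 hq χ h3 h4 h5 β hβ
      refine hz N (by omega) q hq1 hq χ h3 h4 h5 β (lt_of_le_of_lt ?_ hβ)
      have : w ≤ b * (N : ℝ) ^ (-(ε / 2)) := by
        rw [hwd]
        exact mul_le_mul_of_nonneg_right (min_le_right _ _) hNe0.le
      linarith
    refine (h N (by omega) w hw0 hw1 hz').trans (prop_mono fun f _ hf => lt_of_le_of_lt ?_ hf)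
    have h3 : (N : ℝ) ^ (-ε) = (N : ℝ) ^ (-(ε / 2)) * (N : ℝ) ^ (-(ε / 2)) := by
      rw [← Real.rpow_add hN0]
      congr 1
      ring
    have h4 : (N : ℝ) ^ (-(ε / 2)) ≤ min 1 b * Real.log N ^ (-A) := by
      rw [Real.rpow_neg hN0.le, Real.rpow_neg hlog.le, ← div_eq_mul_inv, inv_eq_one_div,
        div_le_div_iff₀ hNe hlA]
      have hm1 : 0 < min 1 b := by positivity
      nlinarith
    rw [h3, hwd]
    calc (N : ℝ) ^ (-(ε / 2)) * (N : ℝ) ^ (-(ε / 2)) ≤
          (N : ℝ) ^ (-(ε / 2)) * (min 1 b * Real.log N ^ (-A)) :=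
            mul_le_mul_of_nonneg_left h4 hNe0.le
      _ = min 1 b * (N : ℝ) ^ (-(ε / 2)) * Real.log N ^ (-A) := by ring
  · refine ⟨N₀ + 3, fun N _ hN => ?_⟩
    have hN3 : (3 : ℝ) ≤ N := by exact_mod_cast (by omega : 3 ≤ N)
    have hlog : 1 < Real.log N := by
      rw [Real.lt_log_iff_exp_lt (by linarith)]
      have := Real.exp_one_lt_three
      linarith
    have h1 := h N (by omega) (Real.log N ^ (-B)) (Real.rpow_pos_of_pos (by linarith) _)
      (Real.rpow_le_one_of_one_le_of_nonpos hlog.le (by linarith))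
      (weak_zero hB hw (by linarith) (by omega))
    refine h1.trans (prop_mono fun f _ hf => lt_of_le_of_lt (le_of_eq ?_) hf)
    rw [← Real.rpow_add (by linarith)]
    congr 1
    ring

end Pool.Agent.Results.MP_cc4f83_nt.MoreThanHalfNonzero
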